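import Mathlib
import Pool.Agent.Q11.BernOp

set_option autoImplicit false

namespace Pool.Agent.Results.MP_be8152_al.InfinitelyManyClasses

universe u v

section defs

variable {k : Type u} [Field k] {V : Type v} [AddCommGroup V] [Module k V]

/-- `m` is the product of a 4-algebra on `V`: it is commutative and `(x²)² = 0`. -/
def Is4Algebra (m : V →ₗ[k] V →ₗ[k] V) : Prop :=
  (∀ x y, m x y = m y x) ∧ ∀ x, m (m x x) (m x x) = 0

/-- `Ω` is a Bernstein operator: `Ω² = Ω`, `x² · Ω(x) = 0` and `Ω(x)² + Ω(x²) = x²`. -/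
def IsBernsteinOperator (m : V →ₗ[k] V →ₗ[k] V) (Ω : V →ₗ[k] V) : Prop :=
  (∀ x, Ω (Ω x) = Ω x) ∧ (∀ x, m (m x x) (Ω x) = 0) ∧
    ∀ x, m (Ω x) (Ω x) + Ω (m x x) = m x x

/-- `Ω ≈ Ω'`: for some automorphism `f` of the algebra and some `v₀` one has
`Ω'(x) = f(Ω(f⁻¹(x))) - 2 x · v₀` for all `x`, and `Ω'(v₀) = v₀ - v₀²`. -/
def Equivalent (m : V →ₗ[k] V →ₗ[k] V) (Ω Ω' : V →ₗ[k] V) : Prop :=
  ∃ f : V ≃ₗ[k] V, (∀ x y, f (m x y) = m (f x) (f y)) ∧
    ∃ v₀ : V, (∀ x, Ω' x = f (Ω (f.symm x)) - (2 : k) • m x v₀) ∧ Ω' v₀ = v₀ - m v₀ v₀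

/-- The 4-algebra `(V, m)` has an infinite set of pairwise inequivalent Bernstein operators. -/
def HasInfinitelyManyClasses (m : V →ₗ[k] V →ₗ[k] V) : Prop :=
  ∃ S : Set (V →ₗ[k] V), S.Infinite ∧ (∀ Ω ∈ S, IsBernsteinOperator m Ω) ∧
    ∀ Ω ∈ S, ∀ Ω' ∈ S, Ω ≠ Ω' → ¬ Equivalent m Ω Ω'

/-- There is a 4-algebra structure on `V` with infinitely many classes of Bernstein operators. -/
def ExistsWithInfinitelyManyClasses (k : Type u) [Field k] (V : Type v) [AddCommGroup V]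
    [Module k V] : Prop :=
  ∃ m : V →ₗ[k] V →ₗ[k] V, Is4Algebra m ∧ HasInfinitelyManyClasses m

end defs

/-- For every infinite field `k` of characteristic not `2` and every `n ≥ 5` there is a 4-algebra
structure on `k^n` with an infinite set of pairwise inequivalent Bernstein operators. -/
theorem result (k : Type u) [Field k] [Infinite k] (h2 : (2 : k) ≠ 0) (n : ℕ) (hn : 5 ≤ n) :
    ExistsWithInfinitelyManyClasses k (Fin n → k) := by
  open Q11.BernOp in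
  refine ⟨mul hn, ⟨mul_comm' hn, mul_sq_sq hn⟩, Set.range (Om hn), ?_, ?_, ?_⟩
  · apply Set.infinite_range_of_injective
    intro a a' haa
    have h1 : Om hn a (ey hn) (i0 hn) = Om hn a' (ey hn) (i0 hn) := by rw [haa]
    rw [Om0, Om0, ey0, ey1, ey2] at h1
    simpa using h1
  · rintro _ ⟨a, rfl⟩
    refine ⟨fun x => LinearMap.congr_fun (Om_sq hn a) x, fun x => ?_, fun x => ?_⟩
    · exact mul_eq_zero_of hn _ _ (mul0 hn _ _) (mul1 hn _ _) (mul2 hn _ _)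
    · rw [Om_mul_zero, zero_add]
      exact Om_of_zero hn a _ (mul1 hn _ _) (mul2 hn _ _)
  · rintro _ ⟨a, rfl⟩ _ ⟨a', rfl⟩ hne ⟨f, hf, v₀, h3, -⟩
    exact hne (by rw [inequiv hn h2 a a' f hf v₀ h3])

end Pool.Agent.Results.MP_be8152_al.InfinitelyManyClasses
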